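import Mathlib

/-!
# MP_f4bae3_lc, Q1: Borel functions on generalized Baire spaces as iterated sequential limits
-/

set_option autoImplicit false
set_option linter.unusedSectionVars false

namespace Pool.Agent.Results.MP_f4bae3_lc.SequentialLimits

open Cardinal Set Filter Topology

universe u

/-- The generalized Baire space of all functions from `lam` to `lam`. -/
def GB (lam : Cardinal.{u}) : Type u := lam.ord.ToType → lam.ord.ToType

/-- The basic open set of all functions which agree with `x` below `a`. -/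
def N {lam : Cardinal.{u}} (a : lam.ord.ToType) (x : GB lam) : Set (GB lam) :=
  {y | ∀ b < a, y b = x b}

/-- The bounded topology. -/
instance (lam : Cardinal.{u}) : TopologicalSpace (GB lam) :=
  TopologicalSpace.generateFrom {U | ∃ a x, U = N a x}

/-- The `lam⁺`-Borel sets of a space: the least family which contains the open sets and is closed
under complements and unions of at most `lam` members. -/
inductive IsBorel (lam : Cardinal.{u}) {X : Type u} [TopologicalSpace X] : Set X → Prop
  | isOpen (s : Set X) (hs : IsOpen s) : IsBorel lam s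
  | compl (s : Set X) (hs : IsBorel lam s) : IsBorel lam sᶜ
  | iUnion (ι : Type u) (hι : #ι ≤ lam) (s : ι → Set X) (hs : ∀ i, IsBorel lam (s i)) :
      IsBorel lam (⋃ i, s i)

/-- The least class of functions which contains the continuous functions and is closed under
`κ`-limits for all regular `κ ≤ lam`: limits of sequences indexed by the ordinals below `κ`. -/
inductive IsIteratedLimit (lam : Cardinal.{u}) {X Y : Type u} [TopologicalSpace X]
    [TopologicalSpace Y] : (X → Y) → Prop
  | continuous (f : X → Y) (hf : Continuous f) : IsIteratedLimit lam f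
  | limit (κ : Cardinal.{u}) (hκ : κ.IsRegular) (hle : κ ≤ lam) (F : κ.ord.ToType → X → Y)
      (f : X → Y) (hF : ∀ a, IsIteratedLimit lam (F a))
      (hf : ∀ x, Tendsto (fun a => F a x) atTop (𝓝 (f x))) : IsIteratedLimit lam f

/-! ### induction on the size of index sets -/

theorem mk_Iio_lt {κ : Cardinal.{u}} (a : κ.ord.ToType) : #(Iio a) < κ := by
  have h : #(Iio a) < #κ.ord.ToType := Cardinal.mk_Iio_lt a (by simp)
  rwa [Cardinal.mk_ord_toType] at h

theorem card_ind {lam : Cardinal.{u}} (Q : Type u → Prop)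
    (hequiv : ∀ α β : Type u, (α ≃ β) → Q α → Q β) (hfin : ∀ α : Type u, Finite α → Q α)
    (hreg : ∀ κ : Cardinal.{u}, κ.IsRegular → κ ≤ lam → (∀ a : κ.ord.ToType, Q (Iio a)) →
      Q κ.ord.ToType)
    (hsing : ∀ κ : Cardinal.{u}, κ ≤ lam → ∀ S : Set κ.ord.ToType, (∀ a, ∃ s ∈ S, a < s) → Q S →
      (∀ a : κ.ord.ToType, Q (Iio a)) → Q κ.ord.ToType) :
    ∀ α : Type u, #α ≤ lam → Q α := by
  have key : ∀ κ : Cardinal.{u}, ∀ α : Type u, #α = κ → κ ≤ lam → Q α := by
    intro κ
    induction κ using WellFoundedLT.induction with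
    | ind κ ih =>
      intro α hα hle
      by_cases hfinα : Finite α
      · exact hfin α hfinα
      have hω : ℵ₀ ≤ κ := by
        rw [← hα, Cardinal.aleph0_le_mk_iff]
        exact not_finite_iff_infinite.1 hfinα
      obtain ⟨e⟩ : Nonempty (κ.ord.ToType ≃ α) := by
        rw [← Cardinal.eq, hα, Cardinal.mk_ord_toType]
      refine hequiv _ _ e ?_
      have hI : ∀ a : κ.ord.ToType, Q (Iio a) := fun a =>
        ih _ (mk_Iio_lt a) _ rfl ((mk_Iio_lt a).le.trans hle)
      by_cases hr : κ.IsRegular
      · exact hreg κ hr hle hI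
      · obtain ⟨S, hS, hS2⟩ := Order.exists_cof_eq κ.ord.ToType
        have hlt : #S < κ := by
          rw [hS2, Ordinal.cof_toType]
          by_contra h
          exact hr ⟨hω, not_lt.1 h⟩
        have hnm : NoMaxOrder κ.ord.ToType := Cardinal.noMaxOrder hω
        refine hsing κ hle S (fun a => ?_) (ih _ hlt _ rfl (hlt.le.trans hle)) hI
        obtain ⟨b, hb⟩ := exists_gt a
        obtain ⟨s, hs, hbs⟩ := hS b
        exact ⟨s, hs, hb.trans_le hbs⟩
  exact fun α hα => key _ α rfl hα

/-! ### gluing -/

section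
variable {lam : Cardinal.{u}} {X Y : Type u} [TopologicalSpace X] [TopologicalSpace Y]

open Classical in
/-- `f` on `A` and `g` outside `A` -/
noncomputable def glue (A : Set X) (f g : X → Y) : X → Y := fun x => if x ∈ A then f x else g x

theorem glue_mem {A : Set X} {f g : X → Y} {x : X} (h : x ∈ A) : glue A f g x = f x := if_pos h

theorem glue_notMem {A : Set X} {f g : X → Y} {x : X} (h : x ∉ A) : glue A f g x = g x := if_neg h

variable (lam X Y) in
/-- the sets along which functions in the class can be glued -/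
def Good (A : Set X) : Prop :=
  ∀ f g : X → Y, IsIteratedLimit lam f → IsIteratedLimit lam g → IsIteratedLimit lam (glue A f g)

theorem good_compl {A : Set X} (hA : Good lam X Y A) : Good lam X Y Aᶜ := by
  intro f g hf hg
  have h : glue Aᶜ f g = glue A g f := by
    funext x
    by_cases hx : x ∈ A
    · rw [glue_mem hx, glue_notMem (show x ∉ Aᶜ from fun h => h hx)]
    · rw [glue_notMem hx, glue_mem (show x ∈ Aᶜ from hx)]
  rw [h]
  exact hA g f hg hf

theorem good_inter {A B : Set X} (hA : Good lam X Y A) (hB : Good lam X Y B) :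
    Good lam X Y (A ∩ B) := by
  intro f g hf hg
  have h : glue (A ∩ B) f g = glue A (glue B f g) g := by
    funext x
    by_cases hx : x ∈ A
    · rw [glue_mem hx]
      by_cases hx' : x ∈ B
      · rw [glue_mem hx', glue_mem (show x ∈ A ∩ B from ⟨hx, hx'⟩)]
      · rw [glue_notMem hx', glue_notMem (fun h => hx' h.2)]
    · rw [glue_notMem hx, glue_notMem (fun h => hx h.1)]
  rw [h]
  exact hA _ _ (hB f g hf hg) hg

theorem good_union {A B : Set X} (hA : Good lam X Y A) (hB : Good lam X Y B) :
    Good lam X Y (A ∪ B) := by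
  have h := good_compl (good_inter (good_compl hA) (good_compl hB))
  rwa [compl_inter, compl_compl, compl_compl] at h

theorem good_of_isClopen {A : Set X} (hA : IsClopen A) : Good lam X Y A := by
  have h1 : ∀ f : X → Y, IsIteratedLimit lam f → ∀ g : X → Y, Continuous g →
      IsIteratedLimit lam (glue A f g) := by
    intro f hf
    induction hf with
    | continuous f hf =>
      intro g hg
      refine IsIteratedLimit.continuous _ ?_
      classical
      have h2 : glue A f g = A.piecewise f g := by
        funext x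
        by_cases hx : x ∈ A
        · rw [glue_mem hx, Set.piecewise_eq_of_mem _ _ _ hx]
        · rw [glue_notMem hx, Set.piecewise_eq_of_notMem _ _ _ hx]
      rw [h2]
      refine Continuous.piecewise ?_ hf hg
      rw [hA.frontier_eq]
      simp
    | limit κ hκ hle F f hF hf ih =>
      intro g hg
      refine IsIteratedLimit.limit κ hκ hle (fun a => glue A (F a) g) _ (fun a => ih a g hg) ?_
      intro x
      by_cases hx : x ∈ A
      · simp only [glue_mem hx]
        exact hf x
      · simp only [glue_notMem hx]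
        exact tendsto_const_nhds
  intro f g hf hg
  induction hg with
  | continuous g hg => exact h1 f hf g hg
  | limit κ hκ hle F g hF hg ih =>
    refine IsIteratedLimit.limit κ hκ hle (fun a => glue A f (F a)) _ (fun a => ih a) ?_
    intro x
    by_cases hx : x ∈ A
    · simp only [glue_mem hx]
      exact tendsto_const_nhds
    · simp only [glue_notMem hx]
      exact hg x

theorem good_of_eventually {κ : Cardinal.{u}} (hκ : κ.IsRegular) (hle : κ ≤ lam)
    (A : κ.ord.ToType → Set X) (B : Set X) (hA : ∀ a, Good lam X Y (A a))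
    (hB : ∀ x, ∃ a, ∀ b, a ≤ b → (x ∈ A b ↔ x ∈ B)) : Good lam X Y B := by
  intro f g hf hg
  refine IsIteratedLimit.limit κ hκ hle (fun a => glue (A a) f g) _ (fun a => hA a f g hf hg) ?_
  intro x
  obtain ⟨a, ha⟩ := hB x
  refine tendsto_const_nhds.congr' ?_
  have : Nonempty κ.ord.ToType := ⟨a⟩
  filter_upwards [eventually_ge_atTop a] with b hb
  by_cases hx : x ∈ B
  · rw [glue_mem hx, glue_mem ((ha b hb).2 hx)]
  · rw [glue_notMem hx, glue_notMem (fun h => hx ((ha b hb).1 h))]

theorem good_empty : Good lam X Y ∅ := good_of_isClopen isClopen_empty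

theorem good_iUnion {ι : Type u} (hι : #ι ≤ lam) (s : ι → Set X) (hs : ∀ i, Good lam X Y (s i)) :
    Good lam X Y (⋃ i, s i) := by
  revert s
  refine card_ind (lam := lam) (fun ι => ∀ s : ι → Set X, (∀ i, Good lam X Y (s i)) →
    Good lam X Y (⋃ i, s i)) ?_ ?_ ?_ ?_ ι hι
  · intro α β e hα s hs
    have h := hα (fun a => s (e a)) (fun a => hs _)
    rwa [e.surjective.iUnion_comp] at h
  · intro α hfin
    refine Finite.induction_empty_option (P := fun ι : Type u => ∀ s : ι → Set X,
      (∀ i, Good lam X Y (s i)) → Good lam X Y (⋃ i, s i)) ?_ ?_ ?_ α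
    · intro α β e hα s hs
      have h := hα (fun a => s (e a)) (fun a => hs _)
      rwa [e.surjective.iUnion_comp] at h
    · intro s hs
      rw [iUnion_of_empty]
      exact good_empty
    · intro α _ hα s hs
      rw [iUnion_option]
      exact good_union (hs _) (hα _ fun a => hs _)
  · intro κ hκ hle h s hs
    refine good_of_eventually hκ hle (fun a => ⋃ i : Iio a, s i) _
      (fun a => h a _ fun i => hs _) ?_
    intro x
    have hnm : NoMaxOrder κ.ord.ToType := Cardinal.noMaxOrder hκ.aleph0_le
    have hne : Nonempty κ.ord.ToType := by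
      rw [← Cardinal.mk_ne_zero_iff, Cardinal.mk_ord_toType]
      exact (Cardinal.aleph0_pos.trans_le hκ.aleph0_le).ne'
    by_cases hx : x ∈ ⋃ i, s i
    · obtain ⟨i, hi⟩ := mem_iUnion.1 hx
      obtain ⟨a, ha⟩ := exists_gt i
      refine ⟨a, fun b hb => iff_of_true ?_ hx⟩
      exact mem_iUnion.2 ⟨⟨i, ha.trans_le hb⟩, hi⟩
    · refine ⟨hne.some, fun b _ => iff_of_false (fun h => hx ?_) hx⟩
      obtain ⟨i, hi⟩ := mem_iUnion.1 h
      exact mem_iUnion.2 ⟨i, hi⟩
  · intro κ hle S hS h1 h2 s hs
    have h3 : (⋃ i, s i) = ⋃ t : S, ⋃ i : Iio (t : κ.ord.ToType), s i := by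
      refine subset_antisymm ?_ ?_
      · refine iUnion_subset fun i => ?_
        obtain ⟨t, ht, hit⟩ := hS i
        intro x hx
        exact mem_iUnion.2 ⟨⟨t, ht⟩, mem_iUnion.2 ⟨⟨i, hit⟩, hx⟩⟩
      · exact iUnion_subset fun t => iUnion_subset fun i => subset_iUnion s _
    rw [h3]
    exact h1 _ fun t => h2 t _ fun i => hs _

/-- functions which are obtained by gluing at most `lam` functions in the class -/
theorem glue_many {ι : Type u} (hι : #ι ≤ lam) (A : ι → Set X) (hA : ∀ i, Good lam X Y (A i))
    (g : X → Y) (hg : IsIteratedLimit lam g) (G : ι → X → Y) (hG : ∀ i, IsIteratedLimit lam (G i))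
    (h : X → Y) (h1 : ∀ i, ∀ x ∈ A i, h x = G i x) (h2 : ∀ x, (∀ i, x ∉ A i) → h x = g x) :
    IsIteratedLimit lam h := by
  classical
  revert A G h
  refine card_ind (lam := lam) (fun ι => ∀ A : ι → Set X, (∀ i, Good lam X Y (A i)) →
    ∀ G : ι → X → Y, (∀ i, IsIteratedLimit lam (G i)) → ∀ h : X → Y,
    (∀ i, ∀ x ∈ A i, h x = G i x) → (∀ x, (∀ i, x ∉ A i) → h x = g x) →
    IsIteratedLimit lam h) ?_ ?_ ?_ ?_ ι hι
  · intro α β e hα A hA G hG h h1 h2
    refine hα (fun a => A (e a)) (fun a => hA _) (fun a => G (e a)) (fun a => hG _) h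
      (fun a x hx => h1 _ x hx) fun x hx => h2 x fun i => ?_
    have := hx (e.symm i)
    rwa [Equiv.apply_symm_apply] at this
  · intro α hfin
    refine Finite.induction_empty_option (P := fun ι : Type u => ∀ A : ι → Set X,
      (∀ i, Good lam X Y (A i)) →
      ∀ G : ι → X → Y, (∀ i, IsIteratedLimit lam (G i)) → ∀ h : X → Y,
      (∀ i, ∀ x ∈ A i, h x = G i x) → (∀ x, (∀ i, x ∉ A i) → h x = g x) →
      IsIteratedLimit lam h) ?_ ?_ ?_ α
    · intro α β e hα A hA G hG h h1 h2
      refine hα (fun a => A (e a)) (fun a => hA _) (fun a => G (e a)) (fun a => hG _) h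
        (fun a x hx => h1 _ x hx) fun x hx => h2 x fun i => ?_
      have := hx (e.symm i)
      rwa [Equiv.apply_symm_apply] at this
    · intro A hA G hG h h1 h2
      have h3 : h = g := funext fun x => h2 x fun i => i.elim
      rw [h3]
      exact hg
    · intro α _ hα A hA G hG h h1 h2
      let h' : X → Y := fun x => if ∃ a, x ∈ A (some a) then h x else g x
      have h3 : h = glue (A none) (G none) h' := by
        funext x
        by_cases hx : x ∈ A none
        · rw [glue_mem hx]
          exact h1 _ x hx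
        · rw [glue_notMem hx]
          by_cases hx' : ∃ a, x ∈ A (some a)
          · exact (if_pos hx').symm
          · have h4 : h' x = g x := if_neg hx'
            rw [h4]
            refine h2 x fun i => ?_
            rcases i with _ | a
            · exact hx
            · exact fun h => hx' ⟨a, h⟩
      rw [h3]
      refine hA none _ _ (hG none) (hα (fun a => A (some a)) (fun a => hA _) (fun a => G (some a))
        (fun a => hG _) h' (fun a x hx => ?_) fun x hx => ?_)
      · rw [← h1 _ x hx]
        exact if_pos ⟨a, hx⟩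
      · exact if_neg (fun ⟨a, ha⟩ => hx a ha)
  · intro κ hκ hle ih A hA G hG h h1 h2
    have hnm : NoMaxOrder κ.ord.ToType := Cardinal.noMaxOrder hκ.aleph0_le
    have hne : Nonempty κ.ord.ToType := by
      rw [← Cardinal.mk_ne_zero_iff, Cardinal.mk_ord_toType]
      exact (Cardinal.aleph0_pos.trans_le hκ.aleph0_le).ne'
    refine IsIteratedLimit.limit κ hκ hle
      (fun a x => if ∃ i : Iio a, x ∈ A i then h x else g x) _ (fun a => ?_) ?_
    · refine ih a (fun i => A i) (fun i => hA _) (fun i => G i) (fun i => hG _) _ ?_ ?_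
      · intro i x hx
        rw [← h1 _ x hx]
        exact if_pos ⟨i, hx⟩
      · intro x hx
        exact if_neg (fun ⟨a, ha⟩ => hx a ha)
    · intro x
      by_cases hx : ∃ i, x ∈ A i
      · obtain ⟨i, hi⟩ := hx
        obtain ⟨a, ha⟩ := exists_gt i
        refine tendsto_const_nhds.congr' ?_
        filter_upwards [eventually_ge_atTop a] with b hb
        exact (if_pos ⟨⟨i, ha.trans_le hb⟩, hi⟩).symm
      · have h3 : h x = g x := h2 x fun i hi => hx ⟨i, hi⟩
        refine tendsto_const_nhds.congr' (Eventually.of_forall fun b => ?_)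
        rw [h3]
        exact (if_neg fun ⟨i, hi⟩ => hx ⟨i, hi⟩).symm
  · intro κ hle S hS ih1 ih2 A hA G hG h h1 h2
    refine ih1 (fun t => ⋃ i : Iio (t : κ.ord.ToType), A i) (fun t => ?_)
      (fun t x => if ∃ i : Iio (t : κ.ord.ToType), x ∈ A i then h x else g x) (fun t => ?_) h ?_ ?_
    · exact good_iUnion ((mk_Iio_lt _).le.trans hle) _ fun i => hA _
    · refine ih2 t (fun i => A i) (fun i => hA _) (fun i => G i) (fun i => hG _) _ ?_ ?_
      · intro i x hx
        rw [← h1 _ x hx]
        exact if_pos ⟨i, hx⟩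
      · intro x hx
        exact if_neg (fun ⟨a, ha⟩ => hx a ha)
    · intro t x hx
      obtain ⟨i, hi⟩ := mem_iUnion.1 hx
      exact (if_pos ⟨i, hi⟩).symm
    · intro x hx
      refine h2 x fun i hi => ?_
      obtain ⟨t, ht, hit⟩ := hS i
      exact hx ⟨t, ht⟩ (mem_iUnion.2 ⟨⟨i, hit⟩, hi⟩)

end

/-! ### the generalized Baire space -/

section
variable {lam : Cardinal.{u}}

theorem powerlt_self (hκ : lam.IsRegular) (h2 : (2 : Cardinal.{u}) ^< lam = lam)
    {c : Cardinal.{u}} (hc : c < lam) : lam ^ c ≤ lam := by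
  have hω := hκ.aleph0_le
  rcases lt_or_ge c ℵ₀ with h1 | h1
  · obtain ⟨n, rfl⟩ := Cardinal.lt_aleph0.1 h1
    exact Cardinal.power_nat_le hω
  · -- functions are bounded
    have hb : ∀ f : c.ord.ToType → lam.ord.ToType, ∃ a, ∀ i, f i < a := by
      intro f
      by_contra hcon
      push Not at hcon
      have h2 : (univ : Set lam.ord.ToType) = ⋃ i, Iic (f i) := by
        refine (eq_univ_of_forall fun a => ?_).symm
        obtain ⟨i, hi⟩ := hcon a
        exact mem_iUnion.2 ⟨i, hi⟩
      have h3 : #(⋃ i, Iic (f i) : Set lam.ord.ToType) < lam := by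
        rw [Cardinal.card_iUnion_lt_iff_forall_of_isRegular hκ
          (by rw [Cardinal.mk_ord_toType]; exact hc)]
        intro i
        rw [← Iio_insert]
        refine Cardinal.mk_insert_le.trans_lt (Cardinal.add_lt_of_lt hω (mk_Iio_lt _) ?_)
        exact (Cardinal.one_lt_aleph0).trans_le hω
      rw [← h2, Cardinal.mk_univ, Cardinal.mk_ord_toType] at h3
      exact lt_irrefl _ h3
    choose b hb using hb
    have h4 : #(c.ord.ToType → lam.ord.ToType) ≤
        #(Σ a : lam.ord.ToType, (c.ord.ToType → Iio a)) := by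
      refine Cardinal.mk_le_of_injective (f := fun f => ⟨b f, fun i => ⟨f i, hb f i⟩⟩) ?_
      intro f g hfg
      have h5 : b f = b g := congrArg Sigma.fst hfg
      funext i
      have h6 := congrArg (fun s : Σ a : lam.ord.ToType, (c.ord.ToType → Iio a) =>
        (s.2 i).1) hfg
      exact h6
    rw [← Cardinal.power_def, Cardinal.mk_ord_toType, Cardinal.mk_ord_toType] at h4
    refine h4.trans ?_
    rw [Cardinal.mk_sigma]
    refine (Cardinal.sum_le_sum _ (fun _ => lam) fun a => ?_).trans ?_
    · rw [← Cardinal.power_def, Cardinal.mk_ord_toType]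
      have h5 : max #(Iio a) c < lam := max_lt (mk_Iio_lt a) hc
      calc #(Iio a) ^ c ≤ (2 ^ #(Iio a)) ^ (max #(Iio a) c) :=
            (Cardinal.power_le_power_right (Cardinal.cantor _).le).trans
              (Cardinal.power_le_power_left (by
                exact (Cardinal.power_pos _ (by norm_num)).ne') (le_max_right _ _))
        _ = 2 ^ (#(Iio a) * max #(Iio a) c) := (Cardinal.power_mul).symm
        _ ≤ 2 ^ (max #(Iio a) c * max #(Iio a) c) :=
            Cardinal.power_le_power_left two_ne_zero (mul_le_mul' (le_max_left _ _) le_rfl)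
        _ = 2 ^ (max #(Iio a) c) := by
            rw [Cardinal.mul_eq_self (h1.trans (le_max_right _ _))]
        _ ≤ lam := (le_powerlt 2 h5).trans h2.le
    · rw [Cardinal.sum_const', Cardinal.mk_ord_toType]
      exact (Cardinal.mul_eq_self hω).le

/-- codes of basic open sets -/
abbrev Code (lam : Cardinal.{u}) : Type u := Σ a : lam.ord.ToType, (Iio a → lam.ord.ToType)

/-- the basic open set with a given code -/
def NC (s : Code lam) : Set (GB lam) := {y | ∀ b : Iio s.1, y b = s.2 b}

theorem mk_code_le (hκ : lam.IsRegular) (h2 : (2 : Cardinal.{u}) ^< lam = lam) :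
    #(Code lam) ≤ lam := by
  rw [Cardinal.mk_sigma]
  refine (Cardinal.sum_le_sum _ (fun _ => lam) fun a => ?_).trans ?_
  · rw [← Cardinal.power_def, Cardinal.mk_ord_toType]
    exact powerlt_self hκ h2 (mk_Iio_lt a)
  · rw [Cardinal.sum_const', Cardinal.mk_ord_toType]
    exact (Cardinal.mul_eq_self hκ.aleph0_le).le

theorem mem_N_self (a : lam.ord.ToType) (x : GB lam) : x ∈ N a x := fun _ _ => rfl

theorem isOpen_N (a : lam.ord.ToType) (x : GB lam) : IsOpen (N a x) :=
  TopologicalSpace.isOpen_generateFrom_of_mem ⟨a, x, rfl⟩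

theorem N_eq_NC (a : lam.ord.ToType) (x : GB lam) : N a x = NC ⟨a, fun b => x b⟩ := by
  ext y
  exact ⟨fun h b => h b b.2, fun h b hb => h ⟨b, hb⟩⟩

theorem exists_N_subset (hκ : lam.IsRegular) {U : Set (GB lam)} (hU : IsOpen U) {x : GB lam}
    (hx : x ∈ U) : ∃ a, N a x ⊆ U := by
  have hne : Nonempty lam.ord.ToType := by
    rw [← Cardinal.mk_ne_zero_iff, Cardinal.mk_ord_toType]
    exact (Cardinal.aleph0_pos.trans_le hκ.aleph0_le).ne'
  induction hU with
  | basic U hU =>
    obtain ⟨a, y, rfl⟩ := hU
    exact ⟨a, fun z hz b hb => (hz b hb).trans (hx b hb)⟩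
  | univ => exact ⟨hne.some, subset_univ _⟩
  | inter U V hU hV ihU ihV =>
    obtain ⟨a, ha⟩ := ihU hx.1
    obtain ⟨b, hb⟩ := ihV hx.2
    exact ⟨max a b, fun z hz => ⟨ha fun c hc => hz c (hc.trans_le (le_max_left _ _)),
      hb fun c hc => hz c (hc.trans_le (le_max_right _ _))⟩⟩
  | sUnion S hS ih =>
    obtain ⟨U, hU, hxU⟩ := hx
    obtain ⟨a, ha⟩ := ih U hU hxU
    exact ⟨a, ha.trans (subset_sUnion_of_mem hU)⟩

theorem isOpen_NC (s : Code lam) : IsOpen (NC s) := by
  by_cases h : (NC s).Nonempty
  · obtain ⟨x, hx⟩ := h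
    have h1 : NC s = N s.1 x := by
      ext y
      exact ⟨fun h b hb => (h ⟨b, hb⟩).trans (hx ⟨b, hb⟩).symm,
        fun h b => (h b b.2).trans (hx b)⟩
    rw [h1]
    exact isOpen_N _ _
  · rw [not_nonempty_iff_eq_empty.1 h]
    exact isOpen_empty

theorem isClopen_NC (s : Code lam) : IsClopen (NC s) := by
  refine ⟨⟨?_⟩, isOpen_NC s⟩
  have h1 : (NC s)ᶜ = ⋃ x : {x // x ∉ NC s}, N s.1 x.1 := by
    ext y
    constructor
    · intro hy
      exact mem_iUnion.2 ⟨⟨y, hy⟩, mem_N_self _ _⟩
    · intro hy hy'
      obtain ⟨⟨x, hx⟩, hxy⟩ := mem_iUnion.1 hy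
      exact hx fun b => (hxy b b.2).symm.trans (hy' b)
  rw [h1]
  exact isOpen_iUnion fun x => isOpen_N _ _

variable {X : Set (GB lam)}

/-- the trace of a basic open set -/
def NX (X : Set (GB lam)) (s : Code lam) : Set X := {x | (x : GB lam) ∈ NC s}

theorem isClopen_NX (s : Code lam) : IsClopen (NX X s) :=
  (isClopen_NC s).preimage continuous_subtype_val

/-- open sets are unions of at most `lam` clopen sets -/
theorem open_eq (hκ : lam.IsRegular) {U : Set X} (hU : IsOpen U) :
    ∃ D : Set (Code lam), U = ⋃ s : D, NX X s := by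
  obtain ⟨V, hV, rfl⟩ := isOpen_induced_iff.1 hU
  refine ⟨{s | NC s ⊆ V}, ?_⟩
  ext x
  constructor
  · intro hx
    obtain ⟨a, ha⟩ := exists_N_subset hκ hV hx
    rw [N_eq_NC] at ha
    refine mem_iUnion.2 ⟨⟨_, ha⟩, ?_⟩
    exact fun b => rfl
  · intro hx
    obtain ⟨⟨s, hs⟩, hxs⟩ := mem_iUnion.1 hx
    exact hs hxs

variable {Y : Set (GB lam)}

theorem good_of_isBorel (hκ : lam.IsRegular) (h2 : (2 : Cardinal.{u}) ^< lam = lam)
    {A : Set X} (hA : IsBorel lam A) : Good lam X Y A := by
  induction hA with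
  | isOpen s hs =>
    obtain ⟨D, rfl⟩ := open_eq hκ hs
    exact good_iUnion ((Cardinal.mk_set_le D).trans (mk_code_le hκ h2)) _
      fun i => good_of_isClopen (isClopen_NX _)
  | compl s hs ih => exact good_compl ih
  | iUnion ι hι s hs ih => exact good_iUnion hι s ih

theorem isIteratedLimit_of_borel (hκ : lam.IsRegular) (h2 : (2 : Cardinal.{u}) ^< lam = lam)
    {f : X → Y} (hf : ∀ U : Set Y, IsOpen U → IsBorel lam (f ⁻¹' U)) :
    IsIteratedLimit lam f := by
  classical
  by_cases hX : Nonempty X
  swap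
  · rw [not_nonempty_iff] at hX
    exact IsIteratedLimit.continuous _ (by
      rw [continuous_iff_continuousAt]
      exact fun x => hX.elim x)
  obtain ⟨x₀⟩ := hX
  let y₀ : Y := f x₀
  -- the chosen points
  let c : Code lam → Y := fun s => if h : (NX Y s).Nonempty then h.some else y₀
  have hc : ∀ s, (NX Y s).Nonempty → c s ∈ NX Y s := by
    intro s hs
    have : c s = hs.some := dif_pos hs
    rw [this]
    exact hs.some_mem
  refine IsIteratedLimit.limit lam hκ le_rfl
    (fun a x => c ⟨a, fun b => (f x : GB lam) b⟩) f (fun a => ?_) ?_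
  · refine glue_many (ι := Iio a → lam.ord.ToType) ?_
      (fun s => f ⁻¹' (NX Y ⟨a, s⟩)) (fun s => ?_) (fun _ => y₀)
      (IsIteratedLimit.continuous _ continuous_const)
      (fun s _ => c ⟨a, s⟩) (fun s => IsIteratedLimit.continuous _ continuous_const) _ ?_ ?_
    · rw [← Cardinal.power_def, Cardinal.mk_ord_toType]
      exact powerlt_self hκ h2 (mk_Iio_lt a)
    · exact good_of_isBorel hκ h2 (hf _ (isClopen_NX _).isOpen)
    · intro s x hx
      have h3 : (fun b : Iio a => (f x : GB lam) b) = s := funext fun b => hx b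
      simp only [h3]
    · intro x hx
      exact absurd (fun b => rfl) (hx fun b => (f x : GB lam) b)
  · intro x
    rw [tendsto_nhds]
    intro U hU hxU
    obtain ⟨V, hV, rfl⟩ := isOpen_induced_iff.1 hU
    obtain ⟨a, ha⟩ := exists_N_subset hκ hV hxU
    filter_upwards [eventually_ge_atTop a] with b hb
    refine ha fun d hd => ?_
    have h3 : (NX Y ⟨b, fun d : Iio b => (f x : GB lam) d⟩).Nonempty := ⟨f x, fun d => rfl⟩
    exact hc _ h3 ⟨d, hd.trans_le hb⟩

theorem isBorel_iInter {Z : Type u} [TopologicalSpace Z] {ι : Type u} (hι : #ι ≤ lam)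
    (s : ι → Set Z) (hs : ∀ i, IsBorel lam (s i)) : IsBorel lam (⋂ i, s i) := by
  have h : (⋂ i, s i) = (⋃ i, (s i)ᶜ)ᶜ := by
    rw [compl_iUnion]
    simp
  rw [h]
  exact IsBorel.compl _ (IsBorel.iUnion ι hι _ fun i => IsBorel.compl _ (hs i))

theorem borel_of_isIteratedLimit (hκ : lam.IsRegular) (h2 : (2 : Cardinal.{u}) ^< lam = lam)
    {f : X → Y} (hf : IsIteratedLimit lam f) : ∀ U : Set Y, IsOpen U → IsBorel lam (f ⁻¹' U) := by
  induction hf with
  | continuous f hf => exact fun U hU => IsBorel.isOpen _ (hU.preimage hf)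
  | limit κ hκ' hle F f hF hf ih =>
    intro U hU
    obtain ⟨D, rfl⟩ := open_eq hκ hU
    rw [preimage_iUnion]
    refine IsBorel.iUnion D ((Cardinal.mk_set_le D).trans (mk_code_le hκ h2)) _ fun s => ?_
    have hne : Nonempty κ.ord.ToType := by
      rw [← Cardinal.mk_ne_zero_iff, Cardinal.mk_ord_toType]
      exact (Cardinal.aleph0_pos.trans_le hκ'.aleph0_le).ne'
    have h3 : f ⁻¹' (NX Y s) = ⋃ a : κ.ord.ToType, ⋂ b : Ici a, F b ⁻¹' (NX Y s) := by
      ext x
      constructor
      · intro hx
        have h4 := (hf x).eventually ((isClopen_NX (X := Y) s.1).isOpen.mem_nhds hx)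
        obtain ⟨a, ha⟩ := eventually_atTop.1 h4
        exact mem_iUnion.2 ⟨a, mem_iInter.2 fun b => ha b b.2⟩
      · intro hx
        obtain ⟨a, ha⟩ := mem_iUnion.1 hx
        by_contra hcon
        have h4 := (hf x).eventually
          ((isClopen_NX (X := Y) s.1).compl.isOpen.mem_nhds hcon)
        obtain ⟨b, hb⟩ := eventually_atTop.1 h4
        exact hb (max a b) (le_max_right _ _)
          (mem_iInter.1 ha ⟨max a b, mem_Ici.2 (le_max_left _ _)⟩)
    rw [h3]
    refine IsBorel.iUnion _ (by rw [Cardinal.mk_ord_toType]; exact hle) _ fun a => ?_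
    refine isBorel_iInter ?_ _ fun b => ih b _ (isClopen_NX _).isOpen
    refine (Cardinal.mk_set_le _).trans ?_
    rw [Cardinal.mk_ord_toType]
    exact hle

end

/-- **MP_f4bae3_lc, Q1**: let `lam` be an infinite regular cardinal with `2 ^< lam = lam`, and let
`X` and `Y` be subspaces of the generalized Baire space. Then a function `f : X → Y` is
`lam⁺`-Borel measurable if and only if it belongs to the smallest class of functions `X → Y` which
contains the continuous functions and is closed under `κ`-limits for all regular `κ ≤ lam`. -/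
theorem result (lam : Cardinal.{u}) (hreg : lam.IsRegular) (h2 : (2 : Cardinal.{u}) ^< lam = lam)
    (X Y : Set (GB lam)) (f : X → Y) :
    (∀ U : Set Y, IsOpen U → IsBorel lam (f ⁻¹' U)) ↔ IsIteratedLimit lam f :=
  ⟨isIteratedLimit_of_borel hreg h2, borel_of_isIteratedLimit hreg h2⟩

end Pool.Agent.Results.MP_f4bae3_lc.SequentialLimits
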